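import Pool.Agent.Helper28.EP.ADefs

set_option autoImplicit false

namespace Pool.Agent.EP

open MvPolynomial

variable {K : Type*} [Field K]

theorem A0_inv (c : K) : (1 + PowerSeries.C c * PowerSeries.X)⁻¹ =
    PowerSeries.mk fun j => (-c) ^ j := by
  rw [PowerSeries.inv_eq_iff_mul_eq_one]
  · ext n
    rw [mul_add, mul_one, map_add, ← mul_assoc]
    cases n with
    | zero =>
      rw [PowerSeries.coeff_zero_mul_X, PowerSeries.coeff_mk, PowerSeries.coeff_one, if_pos rfl]
      simp
    | succ n =>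
      rw [PowerSeries.coeff_succ_mul_X, PowerSeries.coeff_mk, PowerSeries.coeff_mul_C,
        PowerSeries.coeff_mk, PowerSeries.coeff_one, if_neg (Nat.succ_ne_zero n)]
      ring
  · simp

theorem A0_eM (q t : K) (j : ℕ) : eM q t j = (-1) ^ j * om q t j := by
  unfold eM
  rw [A0_inv, A0_inv]
  set P : PowerSeries K := (PowerSeries.mk fun j => (-q) ^ j) * (PowerSeries.mk fun j => (-t) ^ j)
    with hP
  have h1 : (1 + PowerSeries.C q * PowerSeries.X) * (1 + PowerSeries.C t * PowerSeries.X) * P = 1 := by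
    have hq : (1 + PowerSeries.C q * PowerSeries.X) * (PowerSeries.mk fun j => (-q) ^ j) = 1 := by
      rw [← A0_inv, PowerSeries.mul_inv_cancel]
      simp
    have ht : (1 + PowerSeries.C t * PowerSeries.X) * (PowerSeries.mk fun j => (-t) ^ j) = 1 := by
      rw [← A0_inv, PowerSeries.mul_inv_cancel]
      simp
    calc _ = ((1 + PowerSeries.C q * PowerSeries.X) * (PowerSeries.mk fun j => (-q) ^ j)) *
        ((1 + PowerSeries.C t * PowerSeries.X) * (PowerSeries.mk fun j => (-t) ^ j)) := by
          rw [hP]; ring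
      _ = 1 := by rw [hq, ht, one_mul]
  have h2 : (1 + PowerSeries.X) * (1 + PowerSeries.C (q * t) * PowerSeries.X) *
      (PowerSeries.mk fun j => (-q) ^ j) * (PowerSeries.mk fun j => (-t) ^ j) =
      1 + PowerSeries.X * (PowerSeries.C ((1 - q) * (1 - t)) * P) := by
    have h3 : (1 + PowerSeries.X) * (1 + PowerSeries.C (q * t) * PowerSeries.X) =
        (1 + PowerSeries.C q * PowerSeries.X) * (1 + PowerSeries.C t * PowerSeries.X) +
        PowerSeries.X * PowerSeries.C ((1 - q) * (1 - t)) := by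
      rw [map_mul, map_mul, map_sub, map_sub, map_one]
      ring
    rw [h3, mul_assoc, ← hP, add_mul, h1]
    ring
  rw [h2, map_add]
  cases j with
  | zero =>
    rw [PowerSeries.coeff_zero_X_mul, PowerSeries.coeff_one, if_pos rfl, add_zero]
    simp [om]
  | succ j =>
    rw [PowerSeries.coeff_succ_X_mul, PowerSeries.coeff_one, if_neg (Nat.succ_ne_zero j), zero_add,
      PowerSeries.coeff_C_mul, hP, PowerSeries.coeff_mul]
    show _ = (-1) ^ (j + 1) * -((1 - q) * (1 - t) * ∑ i ∈ Finset.range (j + 1), q ^ i * t ^ (j - i))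
    rw [Finset.Nat.sum_antidiagonal_eq_sum_range_succ_mk]
    rw [pow_succ, mul_neg_one, neg_mul_neg, Finset.mul_sum, Finset.mul_sum, Finset.mul_sum]
    refine Finset.sum_congr rfl fun i hi => ?_
    rw [PowerSeries.coeff_mk, PowerSeries.coeff_mk, neg_pow q, neg_pow t]
    have : j = i + (j - i) := by
      have := Finset.mem_range.1 hi
      omega
    have h4 : (-1 : K) ^ j = (-1) ^ i * (-1) ^ (j - i) := by rw [← pow_add, ← this]
    rw [h4]
    ring

theorem A0_coeff_neg {R : Type*} [CommRing R] (P : Polynomial R) (s : ℕ) :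
    (P.comp (-Polynomial.X)).coeff s = (-1) ^ s * P.coeff s := by
  induction P using Polynomial.induction_on' with
  | add p q hp hq => rw [Polynomial.add_comp, Polynomial.coeff_add, hp, hq, Polynomial.coeff_add,
      mul_add]
  | monomial n a =>
    rw [Polynomial.monomial_comp, neg_pow (Polynomial.X : Polynomial R), ← mul_assoc]
    have : ((-1 : Polynomial R) ^ n) = Polynomial.C ((-1) ^ n) := by simp
    rw [this, ← Polynomial.C_mul, Polynomial.coeff_C_mul_X_pow, Polynomial.coeff_monomial]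
    by_cases h : s = n
    · subst h; simp [mul_comm]
    · rw [if_neg h, if_neg (Ne.symm h), mul_zero]

theorem A0_pleth (q t : K) (g : Lam K) : pleth q t g = (tr q t g).comp (-Polynomial.X) := by
  induction g using MvPolynomial.induction_on with
  | C a =>
    have h1 : pleth q t (C a) = algebraMap K _ a := (pleth q t).commutes a
    have h2 : tr q t (C a) = algebraMap K _ a := (tr q t).commutes a
    rw [h1, h2, IsScalarTower.algebraMap_apply K (Lam K) (Polynomial (Lam K)),
      Polynomial.algebraMap_eq, Polynomial.C_comp]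
  | add f g hf hg => rw [map_add, map_add, hf, hg, Polynomial.add_comp]
  | mul_X f n hf =>
    rw [map_mul, map_mul, hf, Polynomial.mul_comp]
    congr 1
    unfold pleth tr
    rw [aeval_X, aeval_X, Polynomial.sum_comp]
    refine Finset.sum_congr rfl fun j _ => ?_
    rw [Polynomial.monomial_comp, A0_eM]
    rw [← Polynomial.C_mul_X_pow_eq_monomial, neg_pow (Polynomial.X : Polynomial (Lam K)), ← mul_assoc]
    congr 1
    have : ((-1 : Polynomial (Lam K)) ^ j) = Polynomial.C ((-1) ^ j) := by simp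
    rw [this, ← Polynomial.C_mul]
    congr 1
    rw [C_mul, C_pow, C_neg, C_1]
    ring

theorem Dt_apply (q t : K) (k : ℤ) (g : Lam K) :
    Dt q t k g = (tr q t g).sum fun s a => a * e K (k + s) := by
  unfold Dt Dop
  rw [LinearMap.smul_apply, LinearMap.comp_apply, AlgHom.toLinearMap_apply, Polynomial.lsum_apply,
    A0_pleth]
  set P := tr q t g with hP
  have h1 : ∀ (f : ℕ → Lam K → Lam K), (∀ s, f s 0 = 0) → ∀ (R : Polynomial (Lam K)) (N : ℕ),
      R.natDegree < N → R.sum f = ∑ s ∈ Finset.range N, f s (R.coeff s) := by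
    intro f hf R N hN
    exact Polynomial.sum_over_range' R hf N hN
  have h2 : (P.comp (-Polynomial.X)).natDegree < P.natDegree + 1 := by
    have h3 := Polynomial.natDegree_comp_le (p := P) (q := -Polynomial.X)
    have h4 : (-Polynomial.X : Polynomial (Lam K)).natDegree ≤ 1 := by
      rw [Polynomial.natDegree_neg]; exact Polynomial.natDegree_X_le
    have h5 := Nat.mul_le_mul_left P.natDegree h4
    omega
  rw [h1 _ (fun s => by simp) _ _ h2, h1 _ (fun s => by simp) P _ (Nat.lt_succ_self _),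
    Finset.smul_sum]
  refine Finset.sum_congr rfl fun s _ => ?_
  rw [A0_coeff_neg, LinearMap.mulLeft_apply]
  have h6 : ((-1 : K) ^ k) • (((-1) ^ (k + (s : ℤ)).natAbs * e K (k + s)) * ((-1) ^ s * P.coeff s)) =
      (((-1 : K) ^ k) • ((-1 : Lam K) ^ (k + (s : ℤ)).natAbs * (-1) ^ s)) *
        (P.coeff s * e K (k + s)) := by
    rw [smul_mul_assoc]; congr 1; ring
  rw [h6]
  have h7 : (((-1 : K) ^ k) • ((-1 : Lam K) ^ (k + (s : ℤ)).natAbs * (-1) ^ s)) = 1 := by
    have h8 : ((-1 : Lam K) ^ (k + (s : ℤ)).natAbs * (-1) ^ s) =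
        C (((-1 : K) ^ (k + (s : ℤ)).natAbs * (-1) ^ s)) := by simp
    rw [h8, MvPolynomial.smul_eq_C_mul, ← C_mul]
    have h9 : (-1 : K) ^ (k + (s : ℤ)).natAbs = (-1) ^ (k + (s : ℤ)) := by
      have h10 : ((-1 : K) ^ (k + (s : ℤ)).natAbs) = (-1 : K) ^ (((k + (s : ℤ)).natAbs : ℤ)) := by
        rw [zpow_natCast]
      rw [h10]
      rcases Int.natAbs_eq (k + (s : ℤ)) with h | h
      · rw [← h]
      · conv_rhs => rw [h]
        rw [zpow_neg, ← inv_zpow]; norm_num
    rw [h9, zpow_add₀ (by norm_num), zpow_natCast]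
    have h11 : ((-1 : K) ^ k) * ((-1) ^ k * (-1) ^ s * (-1) ^ s) = 1 := by
      have h12 : ((-1 : K) ^ k) * (-1) ^ k = 1 := by rw [← mul_zpow]; norm_num
      have h13 : ((-1 : K) ^ s) * (-1) ^ s = 1 := by rw [← mul_pow]; norm_num
      calc _ = (((-1 : K) ^ k) * (-1) ^ k) * (((-1 : K) ^ s) * (-1) ^ s) := by ring
        _ = 1 := by rw [h12, h13, one_mul]
    rw [h11, C_1]
  rw [h7, one_mul]

theorem Dt_one (q t : K) (k : ℤ) : Dt q t k 1 = e K k := by
  rw [Dt_apply, map_one, ← Polynomial.C_1, Polynomial.sum_C_index (by simp)]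
  simp

theorem A0_range (q t : K) (k : ℤ) (g : Lam K) (N : ℕ) (hN : (tr q t g).natDegree < N) :
    Dt q t k g = ∑ s ∈ Finset.range N, (tr q t g).coeff s * e K (k + s) := by
  rw [Dt_apply]
  exact Polynomial.sum_over_range' _ (fun s => by simp) N hN

theorem A0_tr_e1 (q t : K) : tr q t (e K 1) =
    Polynomial.C (e K 1) - Polynomial.C (C ((1 - q) * (1 - t))) * Polynomial.X := by
  have : e K 1 = X 0 := rfl
  rw [this]
  unfold tr
  rw [aeval_X, Finset.sum_range_succ, Finset.sum_range_succ, Finset.sum_range_zero, zero_add,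
    ← Polynomial.C_mul_X_pow_eq_monomial, ← Polynomial.C_mul_X_pow_eq_monomial]
  have h1 : om q t 0 = 1 := rfl
  have h2 : om q t 1 = -((1 - q) * (1 - t)) := by simp [om]
  have h3 : e K (((0 : ℕ) : ℤ) + 1 - ((0 : ℕ) : ℤ)) = X 0 := rfl
  have h4 : e K (((0 : ℕ) : ℤ) + 1 - ((1 : ℕ) : ℤ)) = 1 := rfl
  rw [h1, h2, h3, h4, pow_zero, pow_one, mul_one, mul_one, C_1, one_mul, C_neg, Polynomial.C_neg]
  ring

theorem comm_e1 (q t : K) (k : ℤ) :
    LinearMap.mulLeft K (e K 1) * Dt q t k - Dt q t k * LinearMap.mulLeft K (e K 1) =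
      ((1 - q) * (1 - t)) • Dt q t (k + 1) := by
  apply LinearMap.ext
  intro g
  rw [LinearMap.sub_apply, Module.End.mul_apply, Module.End.mul_apply, LinearMap.mulLeft_apply,
    LinearMap.mulLeft_apply, LinearMap.smul_apply]
  set P := tr q t g with hP
  have h1 : tr q t (e K 1 * g) = Polynomial.C (e K 1) * P -
      Polynomial.C (C ((1 - q) * (1 - t))) * (Polynomial.X * P) := by
    rw [map_mul, A0_tr_e1, sub_mul, mul_assoc]
  have h2 : (tr q t (e K 1 * g)).natDegree < P.natDegree + 2 := by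
    rw [h1]
    refine lt_of_le_of_lt (Polynomial.natDegree_sub_le _ _) ?_
    rw [max_lt_iff]
    constructor
    · have := Polynomial.natDegree_C_mul_le (e K 1) P
      omega
    · have h3 := Polynomial.natDegree_C_mul_le (C ((1 - q) * (1 - t)) : Lam K) (Polynomial.X * P)
      have h4 := Polynomial.natDegree_mul_le (p := (Polynomial.X : Polynomial (Lam K))) (q := P)
      have h5 : (Polynomial.X : Polynomial (Lam K)).natDegree ≤ 1 := Polynomial.natDegree_X_le
      omega
  rw [A0_range q t k _ _ h2, A0_range q t k g (P.natDegree + 2) (by rw [← hP]; omega),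
    A0_range q t (k + 1) g (P.natDegree + 1) (by rw [← hP]; omega), ← hP]
  have h6 : ∀ s, (tr q t (e K 1 * g)).coeff s * e K (k + s) = e K 1 * (P.coeff s * e K (k + s)) -
      ((1 - q) * (1 - t)) • ((Polynomial.X * P).coeff s * e K (k + s)) := by
    intro s
    rw [h1, Polynomial.coeff_sub, Polynomial.coeff_C_mul, Polynomial.coeff_C_mul,
      MvPolynomial.smul_eq_C_mul]
    ring
  rw [Finset.sum_congr rfl fun s _ => h6 s, Finset.sum_sub_distrib, ← Finset.mul_sum,
    sub_sub_cancel, ← Finset.smul_sum]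
  congr 1
  rw [Finset.sum_range_succ']
  rw [Polynomial.coeff_X_mul_zero, zero_mul, add_zero]
  refine Finset.sum_congr rfl fun s _ => ?_
  rw [Polynomial.coeff_X_mul]
  congr 2
  push_cast; ring

theorem wt_zero : wt 0 = 0 := by simp [wt]

theorem wt_add (m m' : ℕ →₀ ℕ) : wt (m + m') = wt m + wt m' := by
  unfold wt
  rw [Finsupp.sum_add_index']
  · intro; simp
  · intro a b c; ring

theorem wt_single (n k : ℕ) : wt (Finsupp.single n k) = (n + 1) * k := by
  simp [wt]

theorem monomial_mem_Fil {m : ℕ →₀ ℕ} {n : ℤ} (h : (wt m : ℤ) ≤ n) (c : K) :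
    monomial m c ∈ Fil K n := by
  have h1 : (monomial m c : Lam K) = c • monomial m 1 := by
    rw [smul_monomial, smul_eq_mul, mul_one]
  rw [h1]
  exact Submodule.smul_mem _ _ (Submodule.subset_span ⟨m, h, rfl⟩)

theorem Fil_neg (n : ℤ) (hn : n < 0) : Fil K n = ⊥ := by
  unfold Fil
  rw [Submodule.span_eq_bot]
  rintro x ⟨m, h1, -⟩
  omega

theorem Fil_mono (m n : ℤ) (h : m ≤ n) : Fil K m ≤ Fil K n :=
  Submodule.span_mono fun _ ⟨u, h1, h2⟩ => ⟨u, h1.trans h, h2⟩

theorem Fil_ex (g : Lam K) : ∃ n, g ∈ Fil K n := by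
  refine ⟨(∑ m ∈ g.support, wt m : ℕ), ?_⟩
  rw [g.as_sum]
  refine Submodule.sum_mem _ fun m hm => monomial_mem_Fil ?_ _
  have := Finset.single_le_sum (f := fun m => wt m) (fun i _ => Nat.zero_le _) hm
  rw [← g.as_sum]
  exact_mod_cast this

theorem Fil_mul {a b : ℤ} {f g : Lam K} (hf : f ∈ Fil K a) (hg : g ∈ Fil K b) :
    f * g ∈ Fil K (a + b) := by
  induction hf using Submodule.span_induction with
  | mem x hx =>
    obtain ⟨m, h1, rfl⟩ := hx
    induction hg using Submodule.span_induction with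
    | mem y hy =>
      obtain ⟨m', h2, rfl⟩ := hy
      rw [monomial_mul]
      apply monomial_mem_Fil
      rw [wt_add]; push_cast; omega
    | zero => rw [mul_zero]; exact Submodule.zero_mem _
    | add x y _ _ hx hy => rw [mul_add]; exact Submodule.add_mem _ hx hy
    | smul c x _ hx => rw [mul_smul_comm]; exact Submodule.smul_mem _ _ hx
  | zero => rw [zero_mul]; exact Submodule.zero_mem _
  | add x y _ _ hx hy => rw [add_mul]; exact Submodule.add_mem _ hx hy
  | smul c x _ hx => rw [smul_mul_assoc]; exact Submodule.smul_mem _ _ hx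

theorem one_mem_Fil : (1 : Lam K) ∈ Fil K 0 := by
  have h := monomial_mem_Fil (K := K) (m := 0) (n := 0) (by simp [wt_zero]) 1
  simpa using h

theorem e_mem_Fil (k : ℤ) : e K k ∈ Fil K k := by
  match k with
  | Int.ofNat 0 => exact one_mem_Fil
  | Int.ofNat (n + 1) =>
    have h := monomial_mem_Fil (K := K) (m := Finsupp.single n 1) (n := ((n + 1 : ℕ) : ℤ))
      (by simp [wt_single]) 1
    exact h
  | Int.negSucc _ => exact Submodule.zero_mem _

theorem e1_mul_Fil (n : ℤ) (g : Lam K) (hg : g ∈ Fil K n) : e K 1 * g ∈ Fil K (n + 1) := by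
  rw [add_comm]
  exact Fil_mul (e_mem_Fil 1) hg

/-- Polynomials in `w` of total degree `≤ n`. -/
def FilP (n : ℤ) (P : Polynomial (Lam K)) : Prop := ∀ s : ℕ, P.coeff s ∈ Fil K (n - s)

theorem FilP.mul {a b : ℤ} {P P' : Polynomial (Lam K)} (h : FilP a P) (h' : FilP b P') :
    FilP (a + b) (P * P') := by
  intro s
  rw [Polynomial.coeff_mul]
  refine Submodule.sum_mem _ fun x hx => ?_
  have h1 := Fil_mul (h x.1) (h' x.2)
  rw [Finset.HasAntidiagonal.mem_antidiagonal] at hx
  have h2 : a - x.1 + (b - x.2) = a + b - s := by rw [← hx]; push_cast; ring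
  rw [← h2]; exact h1

theorem FilP.one : FilP (K := K) 0 1 := by
  intro s
  rw [Polynomial.coeff_one]
  split_ifs with h
  · subst h; simpa using one_mem_Fil
  · exact Submodule.zero_mem _

theorem FilP.pow {a : ℤ} {P : Polynomial (Lam K)} (h : FilP a P) (k : ℕ) :
    FilP (a * k) (P ^ k) := by
  induction k with
  | zero => simpa using FilP.one
  | succ k ih =>
    rw [pow_succ]
    have h1 := ih.mul h
    have h2 : a * k + a = a * ((k + 1 : ℕ) : ℤ) := by push_cast; ring
    rw [← h2]; exact h1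

theorem FilP_tr_X (q t : K) (n : ℕ) : FilP ((n : ℤ) + 1) (tr q t (X n)) := by
  intro s
  unfold tr
  rw [aeval_X, Polynomial.finsetSum_coeff]
  refine Submodule.sum_mem _ fun j _ => ?_
  rw [Polynomial.coeff_monomial]
  split_ifs with h
  · subst h
    rw [← MvPolynomial.smul_eq_C_mul]
    exact Submodule.smul_mem _ _ (e_mem_Fil _)
  · exact Submodule.zero_mem _

theorem FilP_tr_monomial (q t : K) (m : ℕ →₀ ℕ) : FilP (wt m) (tr q t (monomial m 1)) := by
  induction m using Finsupp.induction_linear with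
  | zero =>
    rw [wt_zero]
    have : (monomial 0 1 : Lam K) = 1 := rfl
    rw [this, map_one]
    exact_mod_cast FilP.one
  | add f g hf hg =>
    have : (monomial (f + g) 1 : Lam K) = monomial f 1 * monomial g 1 := by
      rw [monomial_mul, one_mul]
    rw [this, map_mul, wt_add, Nat.cast_add]
    exact hf.mul hg
  | single n k =>
    have : (monomial (Finsupp.single n k) 1 : Lam K) = X n ^ k := by
      rw [X_pow_eq_monomial]
    rw [this, map_pow, wt_single]
    have h := (FilP_tr_X q t n).pow k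
    exact_mod_cast h

theorem FilP_tr (q t : K) {n : ℤ} {g : Lam K} (hg : g ∈ Fil K n) : FilP n (tr q t g) := by
  intro s
  induction hg using Submodule.span_induction with
  | mem x hx =>
    obtain ⟨m, h1, rfl⟩ := hx
    exact Fil_mono _ _ (by omega) (FilP_tr_monomial q t m s)
  | zero => rw [map_zero, Polynomial.coeff_zero]; exact Submodule.zero_mem _
  | add x y _ _ hx hy => rw [map_add, Polynomial.coeff_add]; exact Submodule.add_mem _ hx hy
  | smul c x _ hx => rw [map_smul, Polynomial.coeff_smul]; exact Submodule.smul_mem _ _ hx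

theorem filOp_of (q t : K) (hDt : ∀ (k : ℤ) (g : Lam K),
    Dt q t k g = (tr q t g).sum fun s a => a * e K (k + s)) : FilOp (Fil K) (Dt q t) where
  neg := Fil_neg
  mono := Fil_mono
  ex := Fil_ex
  map k n g hg := by
    rw [hDt, Polynomial.sum_def]
    refine Submodule.sum_mem _ fun s _ => ?_
    have h := Fil_mul (FilP_tr q t hg s) (e_mem_Fil (K := K) (k + s))
    have h2 : n - (s : ℤ) + (k + s) = n + k := by ring
    rw [← h2]; exact h

theorem filOp_Dt (q t : K) : FilOp (Fil K) (Dt q t) := filOp_of q t (Dt_apply q t)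

end Pool.Agent.EP
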