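import Pool.Agent.Helper28.EP.ADefs

/-!
# MP_36e183_co, part A, block A3: the derivation theorem
-/

set_option autoImplicit false

namespace Pool.Agent.EP

variable {K : Type*} [Field K]

/-! ### signed sums -/

theorem sg_zero {G : Type*} [AddCommGroup G] (a b : ℤ) : sg (fun _ => (0 : G)) a b = 0 := by
  simp [sg]

theorem sg_sub {G : Type*} [AddCommGroup G] (f g : ℤ → G) (a b : ℤ) :
    sg (fun s => f s - g s) a b = sg f a b - sg g a b := by
  simp only [sg, Finset.sum_sub_distrib]
  abel

theorem sg_smul {G : Type*} [AddCommGroup G] [Module K G] (c : K) (f : ℤ → G) (a b : ℤ) :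
    sg (fun s => c • f s) a b = c • sg f a b := by
  simp only [sg, ← Finset.smul_sum, smul_sub]

theorem sg_mul_left {G : Type*} [Ring G] (c : G) (f : ℤ → G) (a b : ℤ) :
    sg (fun s => c * f s) a b = c * sg f a b := by
  simp only [sg, ← Finset.mul_sum, mul_sub]

theorem sg_mul_right {G : Type*} [Ring G] (c : G) (f : ℤ → G) (a b : ℤ) :
    sg (fun s => f s * c) a b = sg f a b * c := by
  simp only [sg, ← Finset.sum_mul, sub_mul]

theorem sg_congr {G : Type*} [AddCommGroup G] {f g : ℤ → G} (h : ∀ s, f s = g s) (a b : ℤ) :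
    sg f a b = sg g a b := by
  have : f = g := funext h
  rw [this]

theorem sg_self {G : Type*} [AddCommGroup G] (f : ℤ → G) (a : ℤ) : sg f a a = 0 := by
  simp [sg]

/-- the recursion on the left end point -/
theorem sg_left {G : Type*} [AddCommGroup G] (f : ℤ → G) (a b : ℤ) :
    sg f a b = f (a + 1) + sg f (a + 1) b := by
  unfold sg
  rcases lt_trichotomy (a + 1) b with h | h | h
  · have h1 : Finset.Ioc a b = insert (a + 1) (Finset.Ioc (a + 1) b) := by
      ext x
      simp only [Finset.mem_Ioc, Finset.mem_insert]
      omega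
    have h2 : Finset.Ioc b a = ∅ := Finset.Ioc_eq_empty (by omega)
    have h3 : Finset.Ioc b (a + 1) = ∅ := Finset.Ioc_eq_empty (by omega)
    rw [h1, h2, h3, Finset.sum_insert (by simp)]
    simp
  · have h1 : Finset.Ioc a b = {a + 1} := by
      ext x
      simp only [Finset.mem_Ioc, Finset.mem_singleton]
      omega
    have h2 : Finset.Ioc b a = ∅ := Finset.Ioc_eq_empty (by omega)
    have h3 : Finset.Ioc b (a + 1) = ∅ := Finset.Ioc_eq_empty (by omega)
    have h4 : Finset.Ioc (a + 1) b = ∅ := Finset.Ioc_eq_empty (by omega)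
    rw [h1, h2, h3, h4]
    simp
  · have h1 : Finset.Ioc b (a + 1) = insert (a + 1) (Finset.Ioc b a) := by
      ext x
      simp only [Finset.mem_Ioc, Finset.mem_insert]
      omega
    have h2 : Finset.Ioc a b = ∅ := Finset.Ioc_eq_empty (by omega)
    have h3 : Finset.Ioc (a + 1) b = ∅ := Finset.Ioc_eq_empty (by omega)
    rw [h1, h2, h3, Finset.sum_insert (by simp)]
    simp

/-- the recursion on the right end point -/
theorem sg_right {G : Type*} [AddCommGroup G] (f : ℤ → G) (a b : ℤ) :
    sg f a (b + 1) = sg f a b + f (b + 1) := by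
  unfold sg
  rcases lt_trichotomy (b + 1) a with h | h | h
  · have h1 : Finset.Ioc b a = insert (b + 1) (Finset.Ioc (b + 1) a) := by
      ext x
      simp only [Finset.mem_Ioc, Finset.mem_insert]
      omega
    have h2 : Finset.Ioc a b = ∅ := Finset.Ioc_eq_empty (by omega)
    have h3 : Finset.Ioc a (b + 1) = ∅ := Finset.Ioc_eq_empty (by omega)
    rw [h1, h2, h3, Finset.sum_insert (by simp)]
    simp
  · have h1 : Finset.Ioc b a = {b + 1} := by
      ext x
      simp only [Finset.mem_Ioc, Finset.mem_singleton]
      omega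
    have h2 : Finset.Ioc a b = ∅ := Finset.Ioc_eq_empty (by omega)
    have h3 : Finset.Ioc a (b + 1) = ∅ := Finset.Ioc_eq_empty (by omega)
    have h4 : Finset.Ioc (b + 1) a = ∅ := Finset.Ioc_eq_empty (by omega)
    rw [h1, h2, h3, h4]
    simp
  · have h1 : Finset.Ioc a (b + 1) = insert (b + 1) (Finset.Ioc a b) := by
      ext x
      simp only [Finset.mem_Ioc, Finset.mem_insert]
      omega
    have h2 : Finset.Ioc b a = ∅ := Finset.Ioc_eq_empty (by omega)
    have h3 : Finset.Ioc (b + 1) a = ∅ := Finset.Ioc_eq_empty (by omega)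
    rw [h1, h2, h3, Finset.sum_insert (by simp)]
    simp [add_comm]

/-- translation of the index -/
theorem sg_shift {G : Type*} [AddCommGroup G] (f : ℤ → G) (a b c : ℤ) :
    sg (fun s => f (s + c)) a b = sg f (a + c) (b + c) := by
  have h : ∀ a b : ℤ, ∑ s ∈ Finset.Ioc a b, f (s + c) = ∑ s ∈ Finset.Ioc (a + c) (b + c), f s := by
    intro a b
    refine Finset.sum_nbij' (fun s => s + c) (fun s => s - c) ?_ ?_ ?_ ?_ ?_
    · intro s hs
      simp only [Finset.mem_Ioc] at hs ⊢
      omega
    · intro s hs
      simp only [Finset.mem_Ioc] at hs ⊢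
      omega
    · intro s _
      ring
    · intro s _
      ring
    · intro s _
      rfl
  unfold sg
  rw [h, h]

/-- telescoping -/
theorem sg_tele {G : Type*} [AddCommGroup G] (c : ℤ → G) (a b : ℤ) :
    sg (fun s => c s - c (s + 1)) a b = c (a + 1) - c (b + 1) := by
  have key : ∀ n : ℕ, sg (fun s => c s - c (s + 1)) a (a + n) = c (a + 1) - c (a + n + 1) := by
    intro n
    induction n with
    | zero => simp [sg_self]
    | succ n ih =>
      push_cast
      rw [← add_assoc, sg_right, ih]
      abel
  have key2 : ∀ n : ℕ, sg (fun s => c s - c (s + 1)) a (a - n) = c (a + 1) - c (a - n + 1) := by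
    intro n
    induction n with
    | zero => simp [sg_self]
    | succ n ih =>
      have h1 := sg_right (fun s => c s - c (s + 1)) a (a - (n : ℤ) - 1)
      rw [sub_add_cancel] at h1
      rw [ih] at h1
      push_cast
      rw [← sub_sub, sub_add_cancel]
      have h2 := eq_sub_of_add_eq h1.symm
      rw [h2]
      abel
  rcases le_total a b with h | h
  · obtain ⟨n, rfl⟩ := Int.le.dest h
    exact key n
  · obtain ⟨n, hn⟩ := Int.le.dest h
    have : b = a - n := by omega
    subst this
    exact key2 n

/-! ### the quadratic relation in terms of words -/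

theorem A3_mem_Fil (g : Lam K) : ∃ n : ℤ, g ∈ Fil K n := by
  refine ⟨(g.support.sup wt : ℕ), ?_⟩
  have h0 : ∑ m ∈ g.support, MvPolynomial.monomial m (MvPolynomial.coeff m g) ∈
      Fil K (g.support.sup wt : ℕ) := ?_
  · rwa [MvPolynomial.support_sum_monomial_coeff] at h0
  refine Submodule.sum_mem _ fun m hm => ?_
  have h1 : MvPolynomial.monomial m (MvPolynomial.coeff m g) =
      MvPolynomial.coeff m g • MvPolynomial.monomial m (1 : K) := by
    rw [MvPolynomial.smul_monomial, smul_eq_mul, mul_one]
  rw [h1]
  refine Submodule.smul_mem _ _ (Submodule.subset_span ⟨m, ?_, rfl⟩)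
  have : wt m ≤ g.support.sup wt := Finset.le_sup hm
  exact_mod_cast this

/-- The commutator of two letters in terms of words of length 2. -/
theorem DQ_words (q t : K) (hW : WFacts (Fil K) (Dt q t) (q * t))
    (hDQ : ∀ (g : Lam K) (N : ℤ), ∃ c : ℤ → Lam K, (∃ B : ℤ, ∀ a, B < a → c a = 0) ∧
      (∀ a, Dt q t a (Dt q t (N - a) g) =
        c a - (1 + q * t) • c (a + 1) + (q * t) • c (a + 2)) ∧
      (∀ a, c a - (q + t) • c (a + 1) + (q * t) • c (a + 2) =
        c (N - a) - (q + t) • c (N - a + 1) + (q * t) • c (N - a + 2))) (k : ℤ) :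
    Dt q t 0 * Dt q t k - Dt q t k * Dt q t 0 =
      ((1 - q) * (1 - t)) • sg (fun s => W (Dt q t) (q * t) [s, k - s]) k 0 := by
  -- words of length two telescope
  have hcut : ∀ s, W (Dt q t) (q * t) [s, k - s] = Dt q t s * Dt q t (k - s) +
      (q * t) • W (Dt q t) (q * t) [s + 1, k - (s + 1)] := by
    intro s
    have h := hW.recu s (k - s) []
    rw [h]
    have h2 : W (Dt q t) (q * t) [k - s] = Dt q t (k - s) := rfl
    rw [h2, sub_sub]
  refine LinearMap.ext fun g => ?_
  obtain ⟨c, ⟨B, hB⟩, hc1, hc2⟩ := hDQ g k
  obtain ⟨n, hn⟩ := A3_mem_Fil g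
  have hword : ∀ s, W (Dt q t) (q * t) [s, k - s] g = c s - c (s + 1) := by
    -- the difference satisfies the recursion and vanishes far out
    have hrec : ∀ s, W (Dt q t) (q * t) [s, k - s] g - (c s - c (s + 1)) =
        (q * t) • (W (Dt q t) (q * t) [s + 1, k - (s + 1)] g - (c (s + 1) - c (s + 1 + 1))) := by
      intro s
      rw [hcut s, LinearMap.add_apply, LinearMap.smul_apply, Module.End.mul_apply, hc1 s]
      have h3 : s + 1 + 1 = s + 2 := by ring
      rw [h3]
      module
    have hvan : ∀ s, n + k - s < 0 → B < s →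
        W (Dt q t) (q * t) [s, k - s] g - (c s - c (s + 1)) = 0 := by
      intro s hs hsB
      rw [hB s hsB, hB (s + 1) (by omega), sub_self, sub_zero]
      have := hW.van [s] [k - s] (by simp) n g hn (by simp; omega)
      exact this
    intro s
    have key : ∀ (j : ℕ) (s : ℤ), max (n + k) B < s + j →
        W (Dt q t) (q * t) [s, k - s] g - (c s - c (s + 1)) = 0 := by
      intro j
      induction j with
      | zero =>
        intro s hs
        push_cast at hs
        rw [add_zero, max_lt_iff] at hs
        exact hvan s (by omega) hs.2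
      | succ j ih =>
        intro s hs
        rw [hrec s, ih (s + 1) (by push_cast at hs; omega), smul_zero]
    have h4 := key (max (n + k) B - s + 1).toNat s (by
      have := Int.self_le_toNat (max (n + k) B - s + 1)
      omega)
    exact sub_eq_zero.1 h4
  have hsg : (sg (fun s => W (Dt q t) (q * t) [s, k - s]) k 0) g = c (k + 1) - c 1 := by
    have h5 : (sg (fun s => W (Dt q t) (q * t) [s, k - s]) k 0) g =
        sg (fun s => c s - c (s + 1)) k 0 := by
      unfold sg
      rw [LinearMap.sub_apply, LinearMap.sum_apply, LinearMap.sum_apply]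
      simp only [hword]
    rw [h5, sg_tele, zero_add]
  rw [LinearMap.smul_apply, hsg, LinearMap.sub_apply, Module.End.mul_apply, Module.End.mul_apply]
  have e1 := hc1 0
  have e2 := hc1 k
  have e3 := hc2 0
  rw [sub_zero, zero_add, zero_add] at e1 e3
  rw [sub_self] at e2
  rw [e1, e2]
  have e4 : c 0 = (q + t) • c 1 - (q * t) • c 2 + (c k - (q + t) • c (k + 1) +
      (q * t) • c (k + 2)) := by
    rw [← e3]
    abel
  rw [e4]
  module

/-! ### the derivation theorem -/

section
variable {V : Type*} [AddCommGroup V] [Module K V] {Fil : ℤ → Submodule K V}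
  {D : ℤ → Module.End K V} {θ : K}

/-- multiplication by a letter on the left -/
theorem letter_mul (hW : WFacts Fil D θ) (k k' : ℤ) (v : List ℤ) :
    D k * W D θ (k' :: v) = W D θ (k :: k' :: v) - θ • W D θ ((k + 1) :: (k' - 1) :: v) := by
  rw [hW.recu k k' v, add_sub_cancel_right]

theorem letter_mul_dW0 (hW : WFacts Fil D θ) (k k' : ℤ) (v : List ℤ) : ∀ p : List ℤ,
    D k * dW0 D θ (k' :: p) v =
      dW0 D θ (k :: k' :: p) v - θ • dW0 D θ ((k + 1) :: (k' - 1) :: p) v := by
  induction v with
  | nil => intro p; simp [dW0]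
  | cons a v ih =>
    intro p
    have h1 : ∀ q : List ℤ, dW0 D θ q (a :: v) =
        sg (fun s => W D θ (q ++ s :: (a - s) :: v)) a 0 + dW0 D θ (q ++ [a]) v := fun _ => rfl
    rw [h1, h1, h1]
    simp only [List.cons_append]
    rw [mul_add, ih (p ++ [a]), ← sg_mul_left, smul_add]
    rw [sg_congr (fun s => letter_mul hW k k' (p ++ s :: (a - s) :: v)), sg_sub, sg_smul]
    abel

theorem letter_mul_dWE (hW : WFacts Fil D θ) (k k' : ℤ) (v : List ℤ) : ∀ p : List ℤ,
    D k * dWE D θ (k' :: p) v =
      dWE D θ (k :: k' :: p) v - θ • dWE D θ ((k + 1) :: (k' - 1) :: p) v := by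
  induction v with
  | nil => intro p; simp [dWE]
  | cons a v ih =>
    intro p
    have h1 : ∀ q : List ℤ, dWE D θ q (a :: v) =
        W D θ (q ++ (a + 1) :: v) + dWE D θ (q ++ [a]) v := fun _ => rfl
    rw [h1, h1, h1]
    simp only [List.cons_append]
    rw [mul_add, ih (p ++ [a]), smul_add, letter_mul hW]
    abel

theorem dW0_van (hW : WFacts Fil D θ) (v : List ℤ) : ∀ (u p : List ℤ), p ≠ [] → ∀ (n : ℤ) (g : V),
    g ∈ Fil n → n + p.sum + v.sum < 0 → dW0 D θ (u ++ p) v g = 0 := by
  induction v with
  | nil => intro u p _ n g _ _; simp [dW0]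
  | cons a v ih =>
    intro u p hp n g hg hn
    have h1 : ∀ q : List ℤ, dW0 D θ q (a :: v) =
        sg (fun s => W D θ (q ++ s :: (a - s) :: v)) a 0 + dW0 D θ (q ++ [a]) v := fun _ => rfl
    rw [h1, LinearMap.add_apply, List.append_assoc]
    rw [List.sum_cons] at hn
    rw [ih u (p ++ [a]) (by simp) n g hg (by
      rw [List.sum_append, List.sum_singleton]; omega), add_zero]
    have h2 : ∀ s, W D θ (u ++ p ++ s :: (a - s) :: v) g = 0 := by
      intro s
      rw [List.append_assoc]
      refine hW.van u (p ++ s :: (a - s) :: v) (by simp) n g hg ?_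
      rw [List.sum_append, List.sum_cons, List.sum_cons]
      omega
    unfold sg
    rw [LinearMap.sub_apply, LinearMap.sum_apply, LinearMap.sum_apply,
      Finset.sum_eq_zero (fun s _ => h2 s), Finset.sum_eq_zero (fun s _ => h2 s), sub_zero]

theorem dWE_van (hW : WFacts Fil D θ) (v : List ℤ) : ∀ (u p : List ℤ), p ≠ [] → ∀ (n : ℤ) (g : V),
    g ∈ Fil n → n + p.sum + v.sum + 1 < 0 → dWE D θ (u ++ p) v g = 0 := by
  induction v with
  | nil => intro u p _ n g _ _; simp [dWE]
  | cons a v ih =>
    intro u p hp n g hg hn
    have h1 : ∀ q : List ℤ, dWE D θ q (a :: v) =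
        W D θ (q ++ (a + 1) :: v) + dWE D θ (q ++ [a]) v := fun _ => rfl
    rw [h1, LinearMap.add_apply, List.append_assoc]
    rw [List.sum_cons] at hn
    rw [List.append_assoc, ih u (p ++ [a]) (by simp) n g hg (by
      rw [List.sum_append, List.sum_singleton]; omega), add_zero]
    refine hW.van u (p ++ (a + 1) :: v) (by simp) n g hg ?_
    rw [List.sum_append, List.sum_cons]
    omega

theorem sg_van {f : ℤ → Module.End K V} {g : V} (h : ∀ s, f s g = 0) (a b : ℤ) :
    sg f a b g = 0 := by
  unfold sg
  rw [LinearMap.sub_apply, LinearMap.sum_apply, LinearMap.sum_apply,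
    Finset.sum_eq_zero (fun s _ => h s), Finset.sum_eq_zero (fun s _ => h s), sub_zero]

end

theorem der_D0 {V : Type*} [AddCommGroup V] [Module K V] (Fil : ℤ → Submodule K V)
    (D : ℤ → Module.End K V) (θ M : K) (hF : FilOp Fil D) (hW : WFacts Fil D θ)
    (hDQ : ∀ k, D 0 * D k - D k * D 0 = M • sg (fun s => W D θ [s, k - s]) k 0) (v : List ℤ) :
    D 0 * W D θ v - W D θ v * D 0 = M • dW0 D θ [] v := by
  induction hl : v.length generalizing v with
  | zero =>
    rw [List.length_eq_zero_iff] at hl
    subst hl
    simp [W, dW0]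
  | succ l ih =>
    match v, hl with
    | [k], _ =>
      have h1 : W D θ [k] = D k := rfl
      have h2 : dW0 D θ [] [k] = sg (fun s => W D θ [s, k - s]) k 0 + 0 := rfl
      rw [h1, h2, add_zero]
      exact hDQ k
    | k :: k' :: v, hl =>
      simp only [List.length_cons] at hl
      have key : ∀ a b : ℤ, dW0 D θ [] (a :: b :: v) =
          sg (fun s => W D θ [s, a - s]) a 0 * W D θ (b :: v) + D a * dW0 D θ [] (b :: v) +
            θ • dW0 D θ [] ((a + 1) :: (b - 1) :: v) := by
        intro a b
        have e1 : dW0 D θ [] (a :: b :: v) = sg (fun s => W D θ (s :: (a - s) :: b :: v)) a 0 +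
            (sg (fun s => W D θ (a :: s :: (b - s) :: v)) b 0 + dW0 D θ [a, b] v) := rfl
        have e2 : dW0 D θ [] (b :: v) = sg (fun s => W D θ (s :: (b - s) :: v)) b 0 +
            dW0 D θ [b] v := rfl
        have e3 : dW0 D θ [] ((a + 1) :: (b - 1) :: v) =
            sg (fun s => W D θ (s :: (a + 1 - s) :: (b - 1) :: v)) (a + 1) 0 +
            (sg (fun s => W D θ ((a + 1) :: s :: (b - 1 - s) :: v)) (b - 1) 0 +
              dW0 D θ [a + 1, b - 1] v) := rfl
        have e4 : sg (fun s => W D θ [s, a - s]) a 0 * W D θ (b :: v) =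
            sg (fun s => W D θ (s :: (a - s) :: b :: v)) a 0 -
              θ • sg (fun s => W D θ (s :: (a + 1 - s) :: (b - 1) :: v)) a 0 := by
          rw [← sg_mul_right, ← sg_smul, ← sg_sub]
          refine sg_congr (fun s => ?_) _ _
          have := hW.cut [s] v (a - s) b
          simp only [List.singleton_append] at this
          rw [show a - s + 1 = a + 1 - s by ring] at this
          exact this
        have e5 : D a * sg (fun s => W D θ (s :: (b - s) :: v)) b 0 =
            sg (fun s => W D θ (a :: s :: (b - s) :: v)) b 0 -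
              θ • sg (fun s => W D θ ((a + 1) :: (s - 1) :: (b - s) :: v)) b 0 := by
          rw [← sg_mul_left, ← sg_smul, ← sg_sub]
          exact sg_congr (fun s => letter_mul hW a s _) _ _
        have e6 := sg_left (fun s => W D θ (s :: (a + 1 - s) :: (b - 1) :: v)) a 0
        have e7 := sg_shift (fun s => W D θ ((a + 1) :: s :: (b - 1 - s) :: v)) b 0 (-1)
        have e8 : (fun s => W D θ ((a + 1) :: (s + -1) :: (b - 1 - (s + -1)) :: v)) =
            fun s => W D θ ((a + 1) :: (s - 1) :: (b - s) :: v) := by
          funext s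
          congr 3
          ring_nf
        have e9 := sg_right (fun s => W D θ ((a + 1) :: s :: (b - 1 - s) :: v)) (b - 1) (-1)
        simp only [neg_add_cancel] at e9
        rw [e8] at e7
        rw [← sub_eq_add_neg, zero_add] at e7
        rw [e1, e2, mul_add, letter_mul_dW0 hW a b v [], e3, e4, e5, e6, e7, e9]
        simp only [sub_self, sub_zero]
        module
      have hX := hW.uniq (fun i => (D 0 * W D θ ((k + i) :: (k' - i) :: v) -
        W D θ ((k + i) :: (k' - i) :: v) * D 0) - M • dW0 D θ [] ((k + i) :: (k' - i) :: v))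
        ?_ ?_ 0
      · simp only [add_zero, sub_zero] at hX
        exact sub_eq_zero.1 hX
      · intro i
        have h1 := hW.recu (k + i) (k' - i) v
        have h2 := key (k + i) (k' - i)
        have h3 := ih ((k' - i) :: v) (by simp; omega)
        have h4 := hDQ (k + i)
        have h5 : k + (i + 1) = k + i + 1 := by ring
        have h6 : k' - (i + 1) = k' - i - 1 := by ring
        simp only [h5, h6]
        rw [h1, h2]
        have h7 : D 0 * (D (k + i) * W D θ ((k' - i) :: v)) -
            D (k + i) * W D θ ((k' - i) :: v) * D 0 =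
            (M • sg (fun s => W D θ [s, k + i - s]) (k + i) 0) * W D θ ((k' - i) :: v) +
            D (k + i) * (M • dW0 D θ [] ((k' - i) :: v)) := by
          rw [← h4, ← h3]
          noncomm_ring
        rw [smul_mul_assoc, mul_smul_comm] at h7
        rw [mul_add, add_mul, mul_smul_comm, smul_mul_assoc, smul_add, smul_add]
        have h8 : ∀ (p q' r s u x y z : Module.End K V), p - r = x + y →
            p + q' - (r + s) - (x + y + z) = q' - s - z := by
          intro p q' r s u x y z h
          rw [← h]
          abel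
        rw [h8 _ _ _ _ 0 _ _ _ h7]
        rw [smul_sub, smul_sub, smul_comm M θ]
      · intro g
        obtain ⟨n, hn⟩ := hF.ex g
        refine ⟨n + k' + v.sum + 1, fun i hi => ?_⟩
        have hD0 : D 0 g ∈ Fil n := by
          have := hF.map 0 n g hn
          rwa [add_zero] at this
        have w1 : W D θ ((k + i) :: (k' - i) :: v) g = 0 := by
          refine hW.van [k + i] ((k' - i) :: v) (by simp) n g hn ?_
          rw [List.sum_cons]
          omega
        have w2 : W D θ ((k + i) :: (k' - i) :: v) (D 0 g) = 0 := by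
          refine hW.van [k + i] ((k' - i) :: v) (by simp) n _ hD0 ?_
          rw [List.sum_cons]
          omega
        have w3 : dW0 D θ [] ((k + i) :: (k' - i) :: v) g = 0 := by
          have e1 : dW0 D θ [] ((k + i) :: (k' - i) :: v) =
            sg (fun s => W D θ (s :: (k + i - s) :: (k' - i) :: v)) (k + i) 0 +
            (sg (fun s => W D θ ((k + i) :: s :: (k' - i - s) :: v)) (k' - i) 0 +
              dW0 D θ ([k + i] ++ [k' - i]) v) := rfl
          rw [e1, LinearMap.add_apply, LinearMap.add_apply,
            dW0_van hW v [k + i] [k' - i] (by simp) n g hn (by simp; omega),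
            sg_van, sg_van, add_zero, add_zero]
          · intro s
            refine hW.van [k + i] (s :: (k' - i - s) :: v) (by simp) n g hn ?_
            rw [List.sum_cons, List.sum_cons]
            omega
          · intro s
            refine hW.van [s, k + i - s] ((k' - i) :: v) (by simp) n g hn ?_
            rw [List.sum_cons]
            omega
        simp only [LinearMap.sub_apply, Module.End.mul_apply, LinearMap.smul_apply, w1, w2, w3,
          map_zero, smul_zero, sub_zero]

theorem der_E {V : Type*} [AddCommGroup V] [Module K V] (Fil : ℤ → Submodule K V)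
    (D : ℤ → Module.End K V) (θ M : K) (hF : FilOp Fil D) (hW : WFacts Fil D θ)
    (E : Module.End K V) (hE : ∀ n g, g ∈ Fil n → E g ∈ Fil (n + 1))
    (hED : ∀ k, E * D k - D k * E = M • D (k + 1)) (v : List ℤ) :
    E * W D θ v - W D θ v * E = M • dWE D θ [] v := by
  induction hl : v.length generalizing v with
  | zero =>
    rw [List.length_eq_zero_iff] at hl
    subst hl
    simp [W, dWE]
  | succ l ih =>
    match v, hl with
    | [k], _ =>
      have h1 : W D θ [k] = D k := rfl
      have h2 : dWE D θ [] [k] = D (k + 1) + 0 := rfl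
      rw [h1, h2, add_zero]
      exact hED k
    | k :: k' :: v, hl =>
      simp only [List.length_cons] at hl
      have key : ∀ a b : ℤ, dWE D θ [] (a :: b :: v) =
          D (a + 1) * W D θ (b :: v) + D a * dWE D θ [] (b :: v) +
            θ • dWE D θ [] ((a + 1) :: (b - 1) :: v) := by
        intro a b
        have e1 : dWE D θ [] (a :: b :: v) = W D θ ((a + 1) :: b :: v) +
            (W D θ (a :: (b + 1) :: v) + dWE D θ [a, b] v) := rfl
        have e2 : dWE D θ [] (b :: v) = W D θ ((b + 1) :: v) + dWE D θ [b] v := rfl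
        have e3 : dWE D θ [] ((a + 1) :: (b - 1) :: v) =
            W D θ ((a + 1 + 1) :: (b - 1) :: v) +
            (W D θ ((a + 1) :: (b - 1 + 1) :: v) + dWE D θ [a + 1, b - 1] v) := rfl
        rw [e1, e2, e3, mul_add, letter_mul_dWE hW a b v [], letter_mul hW, letter_mul hW,
          sub_add_cancel, add_sub_cancel_right]
        module
      have hX := hW.uniq (fun i => (E * W D θ ((k + i) :: (k' - i) :: v) -
        W D θ ((k + i) :: (k' - i) :: v) * E) - M • dWE D θ [] ((k + i) :: (k' - i) :: v))
        ?_ ?_ 0
      · simp only [add_zero, sub_zero] at hX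
        exact sub_eq_zero.1 hX
      · intro i
        have h1 := hW.recu (k + i) (k' - i) v
        have h2 := key (k + i) (k' - i)
        have h3 := ih ((k' - i) :: v) (by simp; omega)
        have h4 := hED (k + i)
        have h5 : k + (i + 1) = k + i + 1 := by ring
        have h6 : k' - (i + 1) = k' - i - 1 := by ring
        simp only [h5, h6]
        rw [h1, h2]
        have h7 : E * (D (k + i) * W D θ ((k' - i) :: v)) -
            D (k + i) * W D θ ((k' - i) :: v) * E =
            (M • D (k + i + 1)) * W D θ ((k' - i) :: v) +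
            D (k + i) * (M • dWE D θ [] ((k' - i) :: v)) := by
          rw [← h4, ← h3]
          noncomm_ring
        rw [smul_mul_assoc, mul_smul_comm] at h7
        rw [mul_add, add_mul, mul_smul_comm, smul_mul_assoc, smul_add, smul_add]
        have h8 : ∀ (p q' r s x y z : Module.End K V), p - r = x + y →
            p + q' - (r + s) - (x + y + z) = q' - s - z := by
          intro p q' r s x y z h
          rw [← h]
          abel
        rw [h8 _ _ _ _ _ _ _ h7]
        rw [smul_sub, smul_sub, smul_comm M θ]
      · intro g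
        obtain ⟨n, hn⟩ := hF.ex g
        refine ⟨n + k' + v.sum + 2, fun i hi => ?_⟩
        have hE0 : E g ∈ Fil (n + 1) := hE n g hn
        have w1 : W D θ ((k + i) :: (k' - i) :: v) g = 0 := by
          refine hW.van [k + i] ((k' - i) :: v) (by simp) n g hn ?_
          rw [List.sum_cons]
          omega
        have w2 : W D θ ((k + i) :: (k' - i) :: v) (E g) = 0 := by
          refine hW.van [k + i] ((k' - i) :: v) (by simp) (n + 1) _ hE0 ?_
          rw [List.sum_cons]
          omega
        have w3 : dWE D θ [] ((k + i) :: (k' - i) :: v) g = 0 := by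
          have e1 : dWE D θ [] ((k + i) :: (k' - i) :: v) =
            W D θ ((k + i + 1) :: (k' - i) :: v) +
            (W D θ ((k + i) :: (k' - i + 1) :: v) +
              dWE D θ ([k + i] ++ [k' - i]) v) := rfl
          have w4 : W D θ ((k + i + 1) :: (k' - i) :: v) g = 0 :=
            hW.van [k + i + 1] ((k' - i) :: v) (by simp) n g hn (by rw [List.sum_cons]; omega)
          rw [e1, LinearMap.add_apply, LinearMap.add_apply,
            dWE_van hW v [k + i] [k' - i] (by simp) n g hn (by simp; omega), w4,
            add_zero, zero_add]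
          refine hW.van [k + i] ((k' - i + 1) :: v) (by simp) n g hn ?_
          rw [List.sum_cons]
          omega
        simp only [LinearMap.sub_apply, Module.End.mul_apply, LinearMap.smul_apply, w1, w2, w3,
          map_zero, smul_zero, sub_zero]

end Pool.Agent.EP
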