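import Pool.Agent.Helper32.EP.Defs

/-!
# MP_36e183_co, part A: definitions shared by the blocks

* `sg f a b` : signed sum of `f` over the integers in `(a, b]`.
* `lsum A` : the locally finite sum of a sequence of operators.
* `W D θ v` : the word operator of a word `v` of integers.
* `FilOp Fil D` : `D k` raises the filtration `Fil` by `k`.
* `FA K` : the free algebra on the letters `0, 1, 2, ...` (words of natural numbers).
* `Frame A C g` : the frames (compositions of the substitutions `τ`, `φ`) with their lattice bases.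
-/

set_option autoImplicit false

namespace Pool.Agent.EP

open MvPolynomial

section Words

variable {K : Type*} [Field K] {V : Type*} [AddCommGroup V] [Module K V]

/-- The signed sum of `f` over the integers in `(a, b]`
(minus the sum over `(b, a]` if `b < a`). -/
noncomputable def sg {G : Type*} [AddCommGroup G] (f : ℤ → G) (a b : ℤ) : G :=
  ∑ s ∈ Finset.Ioc a b, f s - ∑ s ∈ Finset.Ioc b a, f s

open Classical in
/-- The pointwise sum of a locally finite sequence of operators (junk value `0` otherwise). -/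
noncomputable def lsum (A : ℕ → Module.End K V) : Module.End K V :=
  if hA : ∀ g : V, {i | A i g ≠ 0}.Finite then
    { toFun := fun g => ∑ᶠ i, A i g
      map_add' := fun g h => by
        rw [← finsum_add_distrib (hA g) (hA h)]
        exact finsum_congr fun i => map_add _ _ _
      map_smul' := fun c g => by
        rw [RingHom.id_apply, smul_finsum]
        exact finsum_congr fun i => map_smul _ _ _ }
  else 0

/-- The word operator with first letter `k` and remaining letters `v`. -/
noncomputable def Wf (D : ℤ → Module.End K V) (θ : K) : List ℤ → ℤ → Module.End K V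
  | [], k => D k
  | k' :: v, k => lsum fun i : ℕ => θ ^ i • (D (k + i) * Wf D θ v (k' - i))

/-- The word operator `D̃_v`: `D̃_{k :: k' :: v} = ∑_{i ≥ 0} θ^i D_{k+i} D̃_{(k'-i) :: v}`. -/
noncomputable def W (D : ℤ → Module.End K V) (θ : K) : List ℤ → Module.End K V
  | [] => 1
  | k :: v => Wf D θ v k

/-- `Fil` is an exhaustive increasing filtration, zero in negative degrees, and `D k` raises it
by `k`. -/
structure FilOp (Fil : ℤ → Submodule K V) (D : ℤ → Module.End K V) : Prop where
  neg : ∀ n < 0, Fil n = ⊥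
  mono : ∀ m n, m ≤ n → Fil m ≤ Fil n
  ex : ∀ g : V, ∃ n, g ∈ Fil n
  map : ∀ k n g, g ∈ Fil n → D k g ∈ Fil (n + k)

/-- The facts about word operators used everywhere (proved in block A2 from `FilOp`). -/
structure WFacts (Fil : ℤ → Submodule K V) (D : ℤ → Module.End K V) (θ : K) : Prop where
  fil : ∀ (v : List ℤ) (n : ℤ) (g : V), g ∈ Fil n → W D θ v g ∈ Fil (n + v.sum)
  van : ∀ (u v : List ℤ), v ≠ [] → ∀ (n : ℤ) (g : V), g ∈ Fil n → n + v.sum < 0 →
    W D θ (u ++ v) g = 0
  recu : ∀ (k k' : ℤ) (v : List ℤ),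
    W D θ (k :: k' :: v) = D k * W D θ (k' :: v) + θ • W D θ ((k + 1) :: (k' - 1) :: v)
  cut : ∀ (x y : List ℤ) (a b : ℤ), W D θ (x ++ [a]) * W D θ (b :: y) =
    W D θ (x ++ a :: b :: y) - θ • W D θ (x ++ (a + 1) :: (b - 1) :: y)
  uniq : ∀ X : ℤ → Module.End K V, (∀ i, X i = θ • X (i + 1)) →
    (∀ g : V, ∃ N : ℤ, ∀ i, N ≤ i → X i g = 0) → ∀ i, X i = 0

/-- The sum over all letters `v_p` of `v` of `pre ++ v` with the letter `v_p` replaced by the signed
sum over `s ∈ (v_p, 0]` of the two letters `s, v_p - s`. -/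
noncomputable def dW0 (D : ℤ → Module.End K V) (θ : K) : List ℤ → List ℤ → Module.End K V
  | _, [] => 0
  | pre, k :: v => sg (fun s => W D θ (pre ++ s :: (k - s) :: v)) k 0 + dW0 D θ (pre ++ [k]) v

/-- The sum over all letters `v_p` of `v` of `pre ++ v` with the letter `v_p` raised by one. -/
noncomputable def dWE (D : ℤ → Module.End K V) (θ : K) : List ℤ → List ℤ → Module.End K V
  | _, [] => 0
  | pre, k :: v => W D θ (pre ++ (k + 1) :: v) + dWE D θ (pre ++ [k]) v

end Words

section Free

variable {K : Type*} [Field K]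

/-- The free algebra on the letters `0, 1, 2, ...`: linear combinations of words. -/
abbrev FA (K : Type*) [Field K] : Type _ := MonoidAlgebra K (FreeMonoid ℕ)

/-- The word `l` as an element of the free algebra. -/
noncomputable def wd (K : Type*) [Field K] (l : List ℕ) : FA K :=
  MonoidAlgebra.single (FreeMonoid.ofList l) 1

/-- Linear extension of a function on words. -/
noncomputable def lin {A : Type*} [AddCommGroup A] [Module K A] (f : List ℕ → A) : FA K →ₗ[K] A :=
  (Finsupp.linearCombination K fun w : FreeMonoid ℕ => f w.toList) ∘ₗ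
    (MonoidAlgebra.coeffLinearEquiv K).toLinearMap

@[simp] theorem lin_wd {A : Type*} [AddCommGroup A] [Module K A] (f : List ℕ → A) (l : List ℕ) :
    lin f (wd K l) = f l := by
  simp [lin, wd, Finsupp.linearCombination_single]

theorem wd_nil : wd K [] = 1 := rfl

theorem wd_mul (l l' : List ℕ) : wd K l * wd K l' = wd K (l ++ l') := by
  simp [wd, MonoidAlgebra.single_mul_single, FreeMonoid.ofList_append]

theorem lin_ext {A : Type*} [AddCommGroup A] [Module K A] {f g : FA K →ₗ[K] A}
    (hfg : ∀ l, f (wd K l) = g (wd K l)) : f = g := by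
  apply MonoidAlgebra.lhom_ext'
  intro w
  ext
  exact hfg w.toList

/-- The derivation of words given by the values `δ` on the letters. -/
noncomputable def derL (δ : ℕ → FA K) : List ℕ → FA K
  | [] => 0
  | k :: v => δ k * wd K v + wd K [k] * derL δ v

/-- The derivation of the free algebra given by the values `δ` on the letters. -/
noncomputable def der (δ : ℕ → FA K) : FA K →ₗ[K] FA K := lin (derL δ)

/-- `∂_∞`: `k ↦ k + 1`. -/
noncomputable def dInf (K : Type*) [Field K] : FA K →ₗ[K] FA K := der fun k => wd K [k + 1]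

/-- `∂_0`: `k ↦ - ∑_{s=1}^{k} (s, k - s)`. -/
noncomputable def dZero (K : Type*) [Field K] : FA K →ₗ[K] FA K :=
  der fun k => -∑ s ∈ Finset.range k, wd K [s + 1, k - 1 - s]

/-- The cut relation for a function `f` on words of natural numbers. -/
def Cut {R : Type*} [Ring R] [Algebra K R] (θ : K) (f : List ℕ → R) : Prop :=
  ∀ (x y : List ℕ) (a b : ℕ), f (x ++ [a]) * f ((b + 1) :: y) =
    f (x ++ a :: (b + 1) :: y) - θ • f (x ++ (a + 1) :: b :: y)

/-- The substitution `τ`: `k ↦ k + 1`. -/
def tauL (l : List ℕ) : List ℕ := l.map (· + 1)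

/-- The substitution `φ`: `k ↦ 1^k 0`. -/
def phiL (l : List ℕ) : List ℕ := l.flatMap fun k => List.replicate k 1 ++ [0]

/-- Frames: `Frame A C g` says that the substitution `g` is a composition of `τ`s and `φ`s and that
`A = g(0,1)`, `C = g(1,0)` for the corresponding linear map of `ℕ²`. -/
inductive Frame : ℕ × ℕ → ℕ × ℕ → (List ℕ → List ℕ) → Prop
  | base : Frame (0, 1) (1, 0) id
  | tau {A C : ℕ × ℕ} {g : List ℕ → List ℕ} :
      Frame A C g → Frame A (A.1 + C.1, A.2 + C.2) (fun l => g (tauL l))
  | phi {A C : ℕ × ℕ} {g : List ℕ → List ℕ} :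
      Frame A C g → Frame (A.1 + C.1, A.2 + C.2) C (fun l => g (phiL l))

end Free

section LamD

variable {K : Type*} [Field K]

/-- `D̃_k = (-1)^k D_k`. -/
noncomputable def Dt (q t : K) (k : ℤ) : Module.End K (Lam K) := ((-1 : K) ^ k) • Dop q t k

/-- The coefficients of `(1-u)(1-qtu)/((1-qu)(1-tu))`. -/
noncomputable def om (q t : K) : ℕ → K
  | 0 => 1
  | s + 1 => -((1 - q) * (1 - t) * ∑ i ∈ Finset.range (s + 1), q ^ i * t ^ (s - i))

/-- The translation `e_n ↦ ∑_j om_j e_{n-j} w^j`, `Λ → Λ[w]`. -/
noncomputable def tr (q t : K) : Lam K →ₐ[K] Polynomial (Lam K) :=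
  aeval (fun n : ℕ =>
    ∑ j ∈ Finset.range (n + 2), Polynomial.monomial j (C (om q t j) * e K ((n : ℤ) + 1 - j)))

/-- The weight of a monomial in `e_1, e_2, ...` (its degree as a symmetric function). -/
def wt (m : ℕ →₀ ℕ) : ℕ := m.sum fun i a => (i + 1) * a

/-- The symmetric functions of degree `≤ n`. -/
noncomputable def Fil (K : Type*) [Field K] (n : ℤ) : Submodule K (Lam K) :=
  Submodule.span K {g | ∃ m : ℕ →₀ ℕ, (wt m : ℤ) ≤ n ∧ g = monomial m 1}

/-- The word operators on symmetric functions. -/
noncomputable def Dw (q t : K) (w : List ℤ) : Module.End K (Lam K) := W (Dt q t) (q * t) w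

/-- `F_w = D̃_w · 1`. -/
noncomputable def Fw (q t : K) (w : List ℤ) : Lam K := Dw q t w 1

/-- The word operators of words of natural numbers. -/
noncomputable def Dn (q t : K) (l : List ℕ) : Module.End K (Lam K) :=
  Dw q t (l.map (fun k : ℕ => (k : ℤ)))

/-- The word of steps of a path `B` with `m` columns. -/
def pathWord (B : ℕ → ℤ) (m : ℕ) : List ℤ := (List.range m).map fun i => B (i + 1) - B i

/-- `IsB m n w`: `w` is the word of the highest path, i.e. `w` has length `m`, sum `n` and all
prefix sums of length `i` are `⌈i n / m⌉`. -/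
def IsB (m n : ℕ) (w : List ℕ) : Prop :=
  w.length = m ∧ w.sum = n ∧
    ∀ u, u <+: w → u.length * n ≤ m * u.sum ∧ m * u.sum < u.length * n + m

/-- `IsBm m n w`: `w` has length `m`, sum `n` and all prefix sums of length `0 < i < m` are
`⌊i n / m⌋ + 1`. -/
def IsBm (m n : ℕ) (w : List ℕ) : Prop :=
  w.length = m ∧ w.sum = n ∧
    ∀ u, u <+: w → 0 < u.length → u.length < m →
      u.length * n < m * u.sum ∧ m * u.sum ≤ u.length * n + m

end LamD

end Pool.Agent.EP
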