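import Pool.Agent.Helper28.EP.A0
import Pool.Agent.Helper45.EP.A1
import Pool.Agent.Helper98.EP.A2
import Pool.Agent.Helper28.EP.A3
import Pool.Agent.Helper54.EP.A4
import Pool.Agent.Helper61.EP.A5
import Pool.Agent.Helper33.EP.A6
import Pool.Agent.Helper67.EP.A7
import Pool.Agent.Helper32.EP.A8

/-!
# MP_36e183_co, part A: assembly
-/

set_option autoImplicit false

namespace Pool.Agent.EP

open MvPolynomial

variable {K : Type*} [Field K]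

section

variable (q t : K)

theorem pa_wf : WFacts (Fil K) (Dt q t) (q * t) := wFacts _ _ _ (filOp_Dt q t)

theorem pa_hA (x : FA K) :
    Q q t 0 1 * lin (Dn q t) x - lin (Dn q t) x * Q q t 0 1 =
      ((1 - q) * (1 - t)) • lin (Dn q t) (dInf K x) := by
  have h1 : (LinearMap.mulLeft K (Q q t 0 1)) ∘ₗ lin (Dn q t) -
      (LinearMap.mulRight K (Q q t 0 1)) ∘ₗ lin (Dn q t) =
      ((1 - q) * (1 - t)) • ((lin (Dn q t)) ∘ₗ dInf K) := by
    apply lin_ext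
    intro l
    have h2 := der_E (Fil K) (Dt q t) (q * t) ((1 - q) * (1 - t)) (filOp_Dt q t) (pa_wf q t)
      (LinearMap.mulLeft K (e K 1)) (fun n g hg => e1_mul_Fil n g hg) (comm_e1 q t)
      (l.map (fun k : ℕ => (k : ℤ)))
    rw [dWE_eq] at h2
    simp only [LinearMap.sub_apply, LinearMap.comp_apply, LinearMap.mulLeft_apply,
      LinearMap.mulRight_apply, LinearMap.smul_apply, lin_wd, Q_zero_one]
    exact h2
  have h3 := congrArg (fun F => F x) h1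
  simpa only [LinearMap.sub_apply, LinearMap.comp_apply, LinearMap.mulLeft_apply,
      LinearMap.mulRight_apply, LinearMap.smul_apply] using h3

theorem pa_hC (x : FA K) :
    Q q t 1 0 * lin (Dn q t) x - lin (Dn q t) x * Q q t 1 0 =
      ((1 - q) * (1 - t)) • lin (Dn q t) (dZero K x) := by
  have h1 : (LinearMap.mulLeft K (Q q t 1 0)) ∘ₗ lin (Dn q t) -
      (LinearMap.mulRight K (Q q t 1 0)) ∘ₗ lin (Dn q t) =
      ((1 - q) * (1 - t)) • ((lin (Dn q t)) ∘ₗ dZero K) := by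
    apply lin_ext
    intro l
    have hDQ := DQ_words q t (pa_wf q t) (DQ q t (Dt_apply q t))
    have h2 := der_D0 (Fil K) (Dt q t) (q * t) ((1 - q) * (1 - t)) (filOp_Dt q t) (pa_wf q t)
      hDQ (l.map (fun k : ℕ => (k : ℤ)))
    rw [dW0_eq] at h2
    simp only [LinearMap.sub_apply, LinearMap.comp_apply, LinearMap.mulLeft_apply,
      LinearMap.mulRight_apply, LinearMap.smul_apply, lin_wd, Q_one_zero]
    exact h2
  have h3 := congrArg (fun F => F x) h1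
  simpa only [LinearMap.sub_apply, LinearMap.comp_apply, LinearMap.mulLeft_apply,
      LinearMap.mulRight_apply, LinearMap.smul_apply] using h3

theorem pa_cut0 : Cut (q * t) (Dn q t) := by
  intro x y a b
  have h1 := (pa_wf q t).cut (x.map (fun k : ℕ => (k : ℤ))) (y.map (fun k : ℕ => (k : ℤ))) a (b + 1)
  simp only [Dn, Dw, List.map_append, List.map_cons, List.map_nil, Nat.cast_add, Nat.cast_one]
  rw [add_sub_cancel_right] at h1
  exact h1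

theorem pa_cut {A C : ℕ × ℕ} {g : List ℕ → List ℕ} (hg : Frame A C g) :
    Cut (q * t) (fun l => Dn q t (g l)) := by
  induction hg with
  | base => exact pa_cut0 q t
  | tau _ ih => exact cut_tau (q * t) _ ih
  | phi _ ih => exact cut_phi (q * t) _ ih

theorem pa_frame (hM : (1 - q) * (1 - t) ≠ 0) {A C : ℕ × ℕ} {g : List ℕ → List ℕ}
    (hg : Frame A C g) :
    (∀ x, Q q t A.1 A.2 * lin (fun l => Dn q t (g l)) x -
      lin (fun l => Dn q t (g l)) x * Q q t A.1 A.2 =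
      ((1 - q) * (1 - t)) • lin (fun l => Dn q t (g l)) (dInf K x)) ∧
    (∀ x, Q q t C.1 C.2 * lin (fun l => Dn q t (g l)) x -
      lin (fun l => Dn q t (g l)) x * Q q t C.1 C.2 =
      ((1 - q) * (1 - t)) • lin (fun l => Dn q t (g l)) (dZero K x)) ∧
    Q q t C.1 C.2 = Dn q t (g [0]) := by
  refine frame_thm ((1 - q) * (1 - t)) hM (fun p => Q q t p.1 p.2) (Dn q t) (pa_hA q t)
    (pa_hC q t) ?_ ?_ hg
  · change Q q t 1 0 = Dn q t [0]
    rw [Q_one_zero]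
    rfl
  · intro A C g hg
    have h1 := Q_frame q t hg 1 le_rfl
    simpa using h1

theorem pa_exists (hM : (1 - q) * (1 - t) ≠ 0) (hθ : q * t ≠ 0)
    (hd : ∀ d : ℕ, 1 ≤ d → ∑ i ∈ Finset.range d, ((q * t)⁻¹) ^ i ≠ 0)
    {A C : ℕ × ℕ} {g : List ℕ → List ℕ} (hg : Frame A C g) :
    ∃ Θ : Lam K →ₐ[K] Module.End K (Lam K),
      IsTheta q t (A.1 + C.1) (A.2 + C.2) Θ ∧
      (∀ d : ℕ, 1 ≤ d → Θ (e K d) = Dn q t (g (List.replicate d 1))) ∧
      Θ (h K 1) = Dn q t (g [1]) ∧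
      (∀ d : ℕ, 2 ≤ d → Θ (h K d) =
        (-(q * t)) ^ (d - 1) • Dn q t (g (2 :: (List.replicate (d - 2) 1 ++ [0])))) := by
  obtain ⟨hA, hC, hC0⟩ := pa_frame q t hM hg
  have hcomm := comm_thm (q * t) ((1 - q) * (1 - t)) hθ hM hd (fun l => Dn q t (g l))
    (pa_cut q t hg) _ _ hA hC hC0
  obtain ⟨Θ, h1, h2, h3, h4⟩ := theta_exists q t hθ (fun l => Dn q t (g l)) (pa_cut q t hg) hcomm
  refine ⟨Θ, ?_, h1, h3, h4⟩
  intro d hd1
  rw [h2 d hd1, Q_frame q t hg d hd1]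
  obtain ⟨g', hg', hg0⟩ := frame_C hg (d - 1)
  obtain ⟨_, _, h5⟩ := pa_frame q t hM hg'
  simp only at h5
  rw [h5, hg0]
  have h6 := hA (wd K (List.replicate (d - 1) 1 ++ [0]))
  rw [lin_wd] at h6
  rw [h6, smul_smul, inv_mul_cancel₀ hM, one_smul]

theorem pa_unique (hθ : q * t ≠ 0)
    (hd : ∀ d : ℕ, 1 ≤ d → ∑ i ∈ Finset.range d, ((q * t)⁻¹) ^ i ≠ 0)
    {a b : ℕ} {Θ Θ' : Lam K →ₐ[K] Module.End K (Lam K)} (h1 : IsTheta q t a b Θ)
    (h2 : IsTheta q t a b Θ') : Θ = Θ' :=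
  qSym_gen q t hθ hd Θ Θ' fun d hd1 => by rw [h1 d hd1, h2 d hd1]

theorem pa_Theta (hM : (1 - q) * (1 - t) ≠ 0) (hθ : q * t ≠ 0)
    (hd : ∀ d : ℕ, 1 ≤ d → ∑ i ∈ Finset.range d, ((q * t)⁻¹) ^ i ≠ 0)
    {A C : ℕ × ℕ} {g : List ℕ → List ℕ} (hg : Frame A C g) :
    (∀ d : ℕ, 1 ≤ d → Theta q t (A.1 + C.1) (A.2 + C.2) (e K d) =
      Dn q t (g (List.replicate d 1))) ∧
    Theta q t (A.1 + C.1) (A.2 + C.2) (h K 1) = Dn q t (g [1]) ∧
    (∀ d : ℕ, 2 ≤ d → Theta q t (A.1 + C.1) (A.2 + C.2) (h K d) =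
      (-(q * t)) ^ (d - 1) • Dn q t (g (2 :: (List.replicate (d - 2) 1 ++ [0])))) := by
  obtain ⟨Θ, h1, h2, h3, h4⟩ := pa_exists q t hM hθ hd hg
  have hex : ∃ Θ, IsTheta q t (A.1 + C.1) (A.2 + C.2) Θ := ⟨Θ, h1⟩
  have h5 : Theta q t (A.1 + C.1) (A.2 + C.2) = Θ := by
    have h6 : IsTheta q t (A.1 + C.1) (A.2 + C.2) (Theta q t (A.1 + C.1) (A.2 + C.2)) := by
      unfold Theta
      rw [dif_pos hex]
      exact hex.choose_spec
    exact pa_unique q t hθ hd h6 h1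
  rw [h5]
  exact ⟨h2, h3, h4⟩

end

theorem pa_gcd (m n : ℕ) (hm : 1 ≤ m) (hn : 1 ≤ n) :
    1 ≤ Nat.gcd m n ∧ 1 ≤ m / Nat.gcd m n ∧ 1 ≤ n / Nat.gcd m n ∧
      Nat.Coprime (m / Nat.gcd m n) (n / Nat.gcd m n) ∧
      m = Nat.gcd m n * (m / Nat.gcd m n) ∧ n = Nat.gcd m n * (n / Nat.gcd m n) := by
  have hd : 0 < Nat.gcd m n := Nat.gcd_pos_of_pos_left _ hm
  refine ⟨hd, Nat.div_pos (Nat.le_of_dvd hm (Nat.gcd_dvd_left _ _)) hd,
    Nat.div_pos (Nat.le_of_dvd hn (Nat.gcd_dvd_right _ _)) hd, Nat.coprime_div_gcd_div_gcd hd,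
    (Nat.mul_div_cancel' (Nat.gcd_dvd_left _ _)).symm,
    (Nat.mul_div_cancel' (Nat.gcd_dvd_right _ _)).symm⟩

theorem partA (q t : K) (hM : (1 - q) * (1 - t) ≠ 0) (hθ : q * t ≠ 0)
    (hd : ∀ d : ℕ, 1 ≤ d → ∑ i ∈ Finset.range d, ((q * t)⁻¹) ^ i ≠ 0) :
    (∀ a b : ℕ, 1 ≤ a → 1 ≤ b → Nat.Coprime a b →
      ∃! Θ : Lam K →ₐ[K] Module.End K (Lam K), IsTheta q t a b Θ) ∧
    (∀ m n : ℕ, 1 ≤ m → 1 ≤ n → ∀ w, IsB m n w →
      emn q t m n = Fw q t (w.map (fun k : ℕ => (k : ℤ)))) ∧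
    (∀ m n : ℕ, 1 ≤ m → 1 ≤ n → ∀ w, IsBm m n w →
      C ((-(q * t)) ^ (1 - (Nat.gcd m n : ℤ))) * hmn q t m n =
        Fw q t (w.map (fun k : ℕ => (k : ℤ)))) := by
  refine ⟨?_, ?_, ?_⟩
  · intro a b ha hb hab
    obtain ⟨A, C, g, hg, rfl, rfl⟩ := frame_exists a b ha hb hab
    obtain ⟨Θ, h1, -⟩ := pa_exists q t hM hθ hd hg
    exact ⟨Θ, h1, fun Θ' h2 => pa_unique q t hθ hd h2 h1⟩
  · intro m n hm hn w hw
    obtain ⟨h1, h2, h3, h4, h5, h6⟩ := pa_gcd m n hm hn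
    obtain ⟨A, C, g, hg, ha, hb⟩ := frame_exists _ _ h2 h3 h4
    have h7 := (pa_Theta q t hM hθ hd hg).1 (Nat.gcd m n) h1
    rw [ha, hb] at h7
    have h8 := frame_isB hg (Nat.gcd m n) (Nat.gcd m n) h1 _ (isB_rep (Nat.gcd m n) h1)
    have h9 : Nat.gcd m n * C.1 + Nat.gcd m n * A.1 = m := by
      rw [← mul_add, add_comm C.1, ha]; exact h5.symm
    have h10 : Nat.gcd m n * C.2 + Nat.gcd m n * A.2 = n := by
      rw [← mul_add, add_comm C.2, hb]; exact h6.symm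
    rw [h9, h10] at h8
    have h11 := isB_unique m n _ _ hw h8
    rw [emn, if_neg (by omega), h7, h11]
    rfl
  · intro m n hm hn w hw
    obtain ⟨h1, h2, h3, h4, h5, h6⟩ := pa_gcd m n hm hn
    obtain ⟨A, C, g, hg, ha, hb⟩ := frame_exists _ _ h2 h3 h4
    obtain ⟨-, h7, h8⟩ := pa_Theta q t hM hθ hd hg
    rw [ha, hb] at h7 h8
    have h9 : Nat.gcd m n * C.1 + Nat.gcd m n * A.1 = m := by
      rw [← mul_add, add_comm C.1, ha]; exact h5.symm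
    have h10 : Nat.gcd m n * C.2 + Nat.gcd m n * A.2 = n := by
      rw [← mul_add, add_comm C.2, hb]; exact h6.symm
    rcases Nat.eq_or_lt_of_le h1 with h11 | h11
    · have h12 := frame_isBm hg 1 1 le_rfl _ isBm_one
      rw [← h11] at h9 h10
      rw [h9, h10] at h12
      have h13 := isBm_unique m n _ _ hw h12
      have h14 : h K (Nat.gcd m n) = h K 1 := by rw [← h11]
      have h15 : (MvPolynomial.C ((-(q * t)) ^ (1 - (Nat.gcd m n : ℤ))) : Lam K) = 1 := by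
        rw [← h11, Nat.cast_one, sub_self, zpow_zero, map_one]
      rw [h15, one_mul, hmn, h14, h7, h13]
      rfl
    · have h12 := frame_isBm hg _ _ h1 _ (isBm_rep (Nat.gcd m n) h11)
      rw [h9, h10] at h12
      have h13 := isBm_unique m n _ _ hw h12
      have h14 : (-(q * t)) ^ (1 - (Nat.gcd m n : ℤ)) * (-(q * t)) ^ (Nat.gcd m n - 1) = 1 := by
        have h15 : (1 - (Nat.gcd m n : ℤ)) = -((Nat.gcd m n - 1 : ℕ) : ℤ) := by omega
        rw [h15, zpow_neg, zpow_natCast]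
        exact inv_mul_cancel₀ (pow_ne_zero _ (neg_ne_zero.mpr hθ))
      rw [hmn, h8 _ h11, h13, LinearMap.smul_apply, ← MvPolynomial.smul_eq_C_mul, smul_smul, h14,
        one_smul]
      rfl

theorem pa_sum_ne_zero {K : Type*} [Field K] {θ : K} (hθ : θ ≠ 0)
    (hp : ∀ i : ℕ, i ≠ 0 → θ ^ i ≠ 1) (d : ℕ) (hd : 1 ≤ d) :
    ∑ i ∈ Finset.range d, (θ⁻¹) ^ i ≠ 0 := by
  intro h0
  have h1 := mul_geom_sum (θ⁻¹) d
  rw [h0, mul_zero] at h1
  have h2 : (θ ^ d)⁻¹ = 1 := by rw [← inv_pow]; exact (sub_eq_zero.mp h1.symm)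
  exact hp d (by omega) (inv_eq_one.mp h2)

theorem partA' {K : Type*} [Field K] (q t : K) (hM : (1 - q) * (1 - t) ≠ 0) (hθ : q * t ≠ 0)
    (hp : ∀ i : ℕ, i ≠ 0 → (q * t) ^ i ≠ 1) :
    (∀ a b : ℕ, 1 ≤ a → 1 ≤ b → Nat.Coprime a b →
      ∃! Θ : Lam K →ₐ[K] Module.End K (Lam K), IsTheta q t a b Θ) ∧
    (∀ m n : ℕ, 1 ≤ m → 1 ≤ n → ∀ w, IsB m n w →
      emn q t m n = Fw q t (w.map (fun k : ℕ => (k : ℤ)))) ∧
    (∀ m n : ℕ, 1 ≤ m → 1 ≤ n → ∀ w, IsBm m n w →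
      C ((-(q * t)) ^ (1 - (Nat.gcd m n : ℤ))) * hmn q t m n =
        Fw q t (w.map (fun k : ℕ => (k : ℤ)))) :=
  partA q t hM hθ (fun d hd => pa_sum_ne_zero hθ hp d hd)

end Pool.Agent.EP
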